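import Pool.Agent.Helper93.LCH.Stmts

/-!
Row EXA of LCH (MP_b555a2_al): homogeneous expressions respect the degree exactly.
-/

namespace LCH17

open LCH

universe u v

section

variable {K : Type u} [Field K] {G : Type v} [Group G]

open Classical in
/-- restriction of a function to the elements whose degree lies in `U` -/
noncomputable def pj (s : Sit G) (f : G → ℝ) (U : Set ℝ) : Module.End K (s.V K) where
  toFun v := ⟨fun x => if f x ∈ U then v.1 x else 0, by
    obtain ⟨v, hv1, hv2⟩ := v
    have key : ∀ x, (if f x ∈ U then v x else 0) ≠ 0 → v x ≠ 0 := by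
      intro x hx
      by_cases h : f x ∈ U
      · rw [if_pos h] at hx; exact hx
      · rw [if_neg h] at hx; exact absurd rfl hx
    exact ⟨fun x hx => hv1 x (key x hx), fun A hne hA => hv2 A hne (fun x hx => key x (hA x hx))⟩⟩
  map_add' v w := by
    ext x
    change (if f x ∈ U then v.1 x + w.1 x else 0)
      = (if f x ∈ U then v.1 x else 0) + (if f x ∈ U then w.1 x else 0)
    by_cases h : f x ∈ U
    · rw [if_pos h, if_pos h, if_pos h]
    · rw [if_neg h, if_neg h, if_neg h, add_zero]
  map_smul' c v := by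
    ext x
    change (if f x ∈ U then c • v.1 x else 0) = c • (if f x ∈ U then v.1 x else 0)
    by_cases h : f x ∈ U
    · rw [if_pos h, if_pos h]
    · rw [if_neg h, if_neg h, smul_zero]

open Classical in
theorem pj_pos (s : Sit G) (f : G → ℝ) (U : Set ℝ) (v : s.V K) {x : G} (h : f x ∈ U) :
    (pj s f U v).1 x = v.1 x := by
  change (if f x ∈ U then v.1 x else 0) = _
  rw [if_pos h]

open Classical in
theorem pj_neg (s : Sit G) (f : G → ℝ) (U : Set ℝ) (v : s.V K) {x : G} (h : ¬ f x ∈ U) :
    (pj s f U v).1 x = 0 := by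
  change (if f x ∈ U then v.1 x else 0) = _
  rw [if_neg h]

/-- the shifted set -/
def sh (r : ℝ) (U : Set ℝ) : Set ℝ := {x | x - r ∈ U}

theorem comm (s : Sit G) (f : G → ℝ) (hf : IsChar s.M f) (e : Ex K G) :
    ∀ r : ℝ, (∀ g ∈ e.supp, g ∈ s.M) → e.Hom f r →
      ∀ U : Set ℝ, e.ev s * pj s f U = pj s f (sh r U) * e.ev s := by
  induction e with
  | mono c g =>
    intro r hsupp hr U
    have hg : g ∈ s.M := hsupp g rfl
    have hr' : f g = r := hr
    have hv0 : ∀ (v : s.V K) (x : G), v.1 x ≠ 0 → x ∈ s.M := fun v x hx => v.2.1 x hx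
    have htr : s.tr K g = s.trn K g hg := by
      unfold Sit.tr
      rw [dif_pos hg]
    ext v x
    change (c • s.tr K g (pj s f U v)).1 x = (pj s f (sh r U) (c • s.tr K g v)).1 x
    rw [htr]
    have e1 : (c • s.trn K g hg (pj s f U v)).1 x = c * (pj s f U v).1 (g⁻¹ * x) := rfl
    have e2 : (c • s.trn K g hg v).1 x = c * v.1 (g⁻¹ * x) := rfl
    rw [e1]
    by_cases hz : v.1 (g⁻¹ * x) = 0
    · have e3 : (pj s f U v).1 (g⁻¹ * x) = 0 := by
        by_cases h : f (g⁻¹ * x) ∈ U
        · rw [pj_pos s f U v h, hz]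
        · rw [pj_neg s f U v h]
      rw [e3, mul_zero]
      by_cases h : f x ∈ sh r U
      · rw [pj_pos s f _ _ h, e2, hz, mul_zero]
      · rw [pj_neg s f _ _ h]
    · have hx' : g⁻¹ * x ∈ s.M := hv0 v _ hz
      have hfx : f x = f g + f (g⁻¹ * x) := by
        have := hf g hg (g⁻¹ * x) hx'
        rw [mul_inv_cancel_left] at this
        exact this
      have hiff : f (g⁻¹ * x) ∈ U ↔ f x ∈ sh r U := by
        change f (g⁻¹ * x) ∈ U ↔ f x - r ∈ U
        rw [hfx, hr']
        rw [add_sub_cancel_left]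
      by_cases h : f (g⁻¹ * x) ∈ U
      · rw [pj_pos s f U v h, pj_pos s f _ _ (hiff.1 h), e2]
      · rw [pj_neg s f U v h, pj_neg s f _ _ (fun h' => h (hiff.2 h')), mul_zero]
  | add a b iha ihb =>
    intro r hsupp hr U
    have h1 := iha r (fun g hg => hsupp g (Or.inl hg)) hr.1 U
    have h2 := ihb r (fun g hg => hsupp g (Or.inr hg)) hr.2 U
    change (a.ev s + b.ev s) * pj s f U = pj s f (sh r U) * (a.ev s + b.ev s)
    rw [add_mul, mul_add, h1, h2]
  | mul a b iha ihb =>
    intro r hsupp hr U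
    obtain ⟨p, q, hpq, ha, hb⟩ := hr
    have h1 := iha p (fun g hg => hsupp g (Or.inl hg)) ha (sh q U)
    have h2 := ihb q (fun g hg => hsupp g (Or.inr hg)) hb U
    change (a.ev s * b.ev s) * pj s f U = pj s f (sh r U) * (a.ev s * b.ev s)
    have h3 : sh p (sh q U) = sh r U := by
      ext x
      change x - p - q ∈ U ↔ x - r ∈ U
      rw [← hpq, sub_sub]
    rw [mul_assoc, h2, ← mul_assoc, h1, h3, mul_assoc]
  | inv a iha =>
    intro r hsupp hr U
    have h1 := iha (-r) (fun g hg => hsupp g hg) hr (sh r U)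
    have h3 : sh (-r) (sh r U) = U := by
      ext x
      change x - -r - r ∈ U ↔ x ∈ U
      rw [sub_neg_eq_add, add_sub_cancel_right]
    rw [h3] at h1
    change Ring.inverse (a.ev s) * pj s f U = pj s f (sh r U) * Ring.inverse (a.ev s)
    by_cases hu : IsUnit (a.ev s)
    · calc Ring.inverse (a.ev s) * pj s f U
          = Ring.inverse (a.ev s) * (pj s f U * a.ev s) * Ring.inverse (a.ev s) := by
            rw [mul_assoc, mul_assoc, Ring.mul_inverse_cancel _ hu, mul_one]
        _ = Ring.inverse (a.ev s) * (a.ev s * pj s f (sh r U)) * Ring.inverse (a.ev s) := by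
            rw [h1]
        _ = pj s f (sh r U) * Ring.inverse (a.ev s) := by
            rw [← mul_assoc, Ring.inverse_mul_cancel _ hu, one_mul]
    · rw [Ring.inverse_non_unit _ hu, zero_mul, mul_zero]

end

theorem st_EXA : ST_EXA.{u, v} := by
  intro K _ G _ s f hf e r hsupp hr a v hv x hx
  have h1 := comm s f hf e r hsupp hr (Set.Ici a)
  have h2 : pj s f (Set.Ici a) v = v := by
    ext y
    by_cases h : f y ∈ Set.Ici a
    · exact pj_pos s f _ v h
    · rw [pj_neg s f _ v h]
      by_contra h'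
      exact h (hv y (Ne.symm h'))
  have h3 : e.ev s v = pj s f (sh r (Set.Ici a)) (e.ev s v) := by
    have h4 := LinearMap.congr_fun h1 v
    have h5 : (Ex.ev s e * pj s f (Set.Ici a) : Module.End K (s.V K)) v
        = Ex.ev s e (pj s f (Set.Ici a) v) := rfl
    rw [h5, h2] at h4
    exact h4
  by_contra hcon
  apply hx
  rw [h3]
  apply pj_neg
  intro h
  apply hcon
  have h6 : a ≤ f x - r := h
  linarith

end LCH17
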